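import Pool.Agent.J4.H16.FL.Bip

set_option autoImplicit false

/-!
Petersen's two-factor theorem for multigraphs with half-edges.
-/

namespace Pool.Agent.J4.H16.TN

open Finset

/-- Let `δ` be the set of the darts of a multigraph with half-edges (the fixed points of the involution
`π`), all degrees equal to `2 r`. The darts can be divided into `r` classes, stable under `π`, such that
every class contains two darts at each vertex. -/
theorem petersen {δ ι : Type} [Fintype δ] [DecidableEq δ] [DecidableEq ι] (v : δ → ι) (π : δ → δ)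
    (hπ : ∀ d, π (π d) = d) (r : ℕ) (hv : ∀ d, (univ.filter fun e => v e = v d).card = 2 * r) :
    ∃ β : δ → ℕ, (∀ d, β (π d) = β d) ∧
      ∀ d, ∀ k < r, 2 ≤ (univ.filter fun e => v e = v d ∧ β e = k).card := by
  classical
  rcases isEmpty_or_nonempty δ with hE | ⟨⟨d0⟩⟩
  · exact ⟨fun d => hE.elim d, fun d => hE.elim d, fun d => hE.elim d⟩
  have hr : 1 ≤ r := by
    have h1 : 0 < (univ.filter fun e => v e = v d0).card :=
      card_pos.2 ⟨d0, mem_filter.2 ⟨mem_univ _, rfl⟩⟩
    rw [hv] at h1
    omega
  have hidx : ∀ i, ∃ f : δ → ℕ, (∀ d, v d = i → f d < 2 * r) ∧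
      ∀ d d', v d = i → v d' = i → f d = f d' → d = d' := by
    intro i
    by_cases hi : ∃ d, v d = i
    · obtain ⟨d, rfl⟩ := hi
      let F := univ.filter fun e => v e = v d
      let q : F ≃ Fin (2 * r) := F.equivFinOfCardEq (hv d)
      refine ⟨fun e => if h : e ∈ F then (q ⟨e, h⟩ : ℕ) else 0, fun e he => ?_, fun e e' he he' h => ?_⟩
      · have h1 : e ∈ F := mem_filter.2 ⟨mem_univ _, he⟩
        simp only [h1, dif_pos]
        exact (q ⟨e, h1⟩).2
      · have h1 : e ∈ F := mem_filter.2 ⟨mem_univ _, he⟩
        have h2 : e' ∈ F := mem_filter.2 ⟨mem_univ _, he'⟩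
        simp only [h1, h2, dif_pos] at h
        exact congrArg Subtype.val (q.injective (Fin.ext h))
    · push Not at hi
      exact ⟨fun _ => 0, fun d hd => absurd hd (hi d), fun d _ hd => absurd hd (hi d)⟩
  choose F hF1 hF2 using hidx
  let idx : δ → ℕ := fun d => F (v d) d
  have idx1 : ∀ d, idx d < 2 * r := fun d => hF1 _ d rfl
  have idx2 : ∀ d d', v d = v d' → idx d = idx d' → d = d' := fun d d' h h' => by
    refine hF2 (v d) d d' rfl h.symm ?_
    have h3 : idx d' = F (v d) d' := by rw [h]
    rw [← h3]
    exact h'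
  obtain ⟨side, hside⟩ := Pool.Agent.J4.H16.FL.exists_side_edges
    (fun d d' k => d ≠ d' ∧ ((k = 0 ∧ v d = v d' ∧ idx d / 2 = idx d' / 2) ∨ (k = 1 ∧ π d = d')))
    (by
      rintro d d' k ⟨h1, h2 | h2⟩
      · exact ⟨h1.symm, Or.inl ⟨h2.1, h2.2.1.symm, h2.2.2.symm⟩⟩
      · exact ⟨h1.symm, Or.inr ⟨h2.1, by rw [← h2.2]; exact hπ d⟩⟩)
    (by
      rintro d d' d'' k ⟨h1, h2⟩ ⟨h1', h2'⟩
      rcases h2 with h2 | h2 <;> rcases h2' with h2' | h2'
      · refine idx2 _ _ (h2.2.1.symm.trans h2'.2.1) ?_
        have h3 : idx d ≠ idx d' := fun h => h1 (idx2 _ _ h2.2.1 h)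
        have h4 : idx d ≠ idx d'' := fun h => h1' (idx2 _ _ h2'.2.1 h)
        have h5 := h2.2.2
        have h6 := h2'.2.2
        omega
      · exact absurd (h2.1.symm.trans h2'.1) (by decide)
      · exact absurd (h2.1.symm.trans h2'.1) (by decide)
      · exact h2.2.symm.trans h2'.2)
    (fun d d' k h => h.1)
  have side0 : ∀ d d', d ≠ d' → v d = v d' → idx d / 2 = idx d' / 2 → (side d' ↔ ¬ side d) :=
    fun d d' h1 h2 h3 => hside d d' 0 ⟨h1, Or.inl ⟨rfl, h2, h3⟩⟩ (by decide)
  have side1 : ∀ d, π d ≠ d → (side (π d) ↔ ¬ side d) :=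
    fun d h => hside d (π d) 1 ⟨h.symm, Or.inr ⟨rfl, rfl⟩⟩ (by decide)
  have plus_le : ∀ i, (univ.filter fun e => v e = i ∧ side e).card ≤ r := by
    intro i
    rw [← card_range r]
    refine card_le_card_of_injOn (fun e => idx e / 2) (fun e _ => ?_) ?_
    · have := idx1 e
      exact mem_coe.2 (mem_range.2 (Nat.div_lt_of_lt_mul this))
    · intro e he e' he' h
      have h1 := (mem_filter.1 (mem_coe.1 he)).2
      have h2 := (mem_filter.1 (mem_coe.1 he')).2
      by_contra hne
      exact ((side0 e e' hne (h1.1.trans h2.1.symm) h).1 h2.2) h1.2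
  have minus_le : ∀ i, (univ.filter fun e => v e = i ∧ ¬ side e).card ≤ r := by
    intro i
    rw [← card_range r]
    refine card_le_card_of_injOn (fun e => idx e / 2) (fun e _ => ?_) ?_
    · have := idx1 e
      exact mem_coe.2 (mem_range.2 (Nat.div_lt_of_lt_mul this))
    · intro e he e' he' h
      have h1 := (mem_filter.1 (mem_coe.1 he)).2
      have h2 := (mem_filter.1 (mem_coe.1 he')).2
      by_contra hne
      exact h2.2 ((side0 e e' hne (h1.1.trans h2.1.symm) h).2 h1.2)
  have hsum : ∀ d, (univ.filter fun e => v e = v d ∧ side e).card +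
      (univ.filter fun e => v e = v d ∧ ¬ side e).card = 2 * r := by
    intro d
    rw [← hv d, ← filter_filter, ← filter_filter]
    exact card_filter_add_card_filter_not _
  have plus_eq : ∀ d, (univ.filter fun e => v e = v d ∧ side e).card = r := fun d => by
    have h1 := hsum d
    have h2 := plus_le (v d)
    have h3 := minus_le (v d)
    omega
  have minus_eq : ∀ d, (univ.filter fun e => v e = v d ∧ ¬ side e).card = r := fun d => by
    have h1 := hsum d
    have h2 := plus_le (v d)
    have h3 := minus_le (v d)
    omega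
  let U := {d : δ // side d ∨ π d = d}
  let a : U → ι ⊕ δ := fun d => if side d.1 then Sum.inl (v d.1) else Sum.inr d.1
  let b : U → ι ⊕ δ := fun d => if side d.1 then (if π d.1 = d.1 then Sum.inr d.1 else
    Sum.inl (v (π d.1))) else Sum.inl (v d.1)
  have ha : ∀ x, (univ.filter fun u => a u = x).card ≤ r := by
    rintro (i | e)
    · refine (card_le_card_of_injOn (fun u : U => u.1) (fun u hu => ?_)
        (Subtype.val_injective.injOn)).trans (plus_le i)
      have h1 : a u = Sum.inl i := (mem_filter.1 (mem_coe.1 hu)).2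
      simp only [a] at h1
      split_ifs at h1 with h2
      exact mem_coe.2 (mem_filter.2 ⟨mem_univ _, Sum.inl_injective h1, h2⟩)
    · refine le_trans ?_ hr
      rw [card_le_one]
      intro u hu u' hu'
      have h1 : a u = Sum.inr e := (mem_filter.1 hu).2
      have h2 : a u' = Sum.inr e := (mem_filter.1 hu').2
      simp only [a] at h1 h2
      split_ifs at h1 h2
      exact Subtype.ext ((Sum.inr_injective h1).trans (Sum.inr_injective h2).symm)
  have hb : ∀ x, (univ.filter fun u => b u = x).card ≤ r := by
    rintro (i | e)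
    · refine (card_le_card_of_injOn (fun u : U => if side u.1 then π u.1 else u.1) (fun u hu => ?_)
        ?_).trans (minus_le i)
      · have h1 : b u = Sum.inl i := (mem_filter.1 (mem_coe.1 hu)).2
        simp only [b] at h1
        split_ifs at h1 with h2 h3
        · have h4 : ¬ side (π u.1) := fun h5 => (side1 u.1 h3).1 h5 h2
          simp only [h2, if_true]
          exact mem_coe.2 (mem_filter.2 ⟨mem_univ _, Sum.inl_injective h1, h4⟩)
        · simp only [h2, if_false]
          exact mem_coe.2 (mem_filter.2 ⟨mem_univ _, Sum.inl_injective h1, h2⟩)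
      · intro u hu u' hu' h
        have h1 : b u = Sum.inl i := (mem_filter.1 (mem_coe.1 hu)).2
        have h1' : b u' = Sum.inl i := (mem_filter.1 (mem_coe.1 hu')).2
        simp only [b] at h1 h1'
        refine Subtype.ext ?_
        by_cases h2 : side u.1 <;> by_cases h2' : side u'.1
        · simp only [h2, h2', if_true] at h
          rw [← hπ u.1, h, hπ]
        · simp only [h2, h2', if_true, if_false] at h
          have h3 : π u'.1 = u'.1 := u'.2.resolve_left h2'
          rw [← hπ u.1, h, h3]
        · simp only [h2, h2', if_true, if_false] at h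
          have h3 : π u.1 = u.1 := u.2.resolve_left h2
          rw [← hπ u'.1, ← h, h3]
        · simp only [h2, h2', if_false] at h
          exact h
    · refine le_trans ?_ hr
      rw [card_le_one]
      intro u hu u' hu'
      have h1 : b u = Sum.inr e := (mem_filter.1 hu).2
      have h2 : b u' = Sum.inr e := (mem_filter.1 hu').2
      simp only [b] at h1 h2
      split_ifs at h1 h2
      exact Subtype.ext ((Sum.inr_injective h1).trans (Sum.inr_injective h2).symm)
  obtain ⟨c', ca, cb⟩ := Pool.Agent.N645.TBKON.kon a b r ha hb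
  let c : U → ℕ := fun u => c' u
  have hc1 : ∀ u, c u < r := fun u => (c' u).2
  let rep : δ → U := fun d => if h : side d then ⟨d, Or.inl h⟩ else
    if h' : π d = d then ⟨d, Or.inr h'⟩ else ⟨π d, Or.inl ((side1 d h').2 h)⟩
  have rep_plus : ∀ d (h : side d), rep d = ⟨d, Or.inl h⟩ := fun d h => by simp only [rep, h, dif_pos]
  have rep_minus : ∀ d (_ : ¬ side d) (h' : π d = d), rep d = ⟨d, Or.inr h'⟩ := fun d h h' => by
    simp only [rep, h, h', dif_pos, dif_neg, not_false_eq_true]
  have rep_minus' : ∀ d (h : ¬ side d) (h' : π d ≠ d), rep d = ⟨π d, Or.inl ((side1 d h').2 h)⟩ :=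
    fun d h h' => by simp only [rep, h, h', dif_neg, not_false_eq_true]
  have rep_inv : ∀ d, rep (π d) = rep d := by
    intro d
    by_cases h' : π d = d
    · rw [h']
    · have h'' : π (π d) ≠ π d := by rw [hπ]; exact fun h => h' h.symm
      by_cases h : side d
      · have h1 : ¬ side (π d) := fun h2 => (side1 d h').1 h2 h
        rw [rep_plus d h, rep_minus' (π d) h1 h'']
        exact Subtype.ext (hπ d)
      · have h1 : side (π d) := (side1 d h').2 h
        rw [rep_minus' d h h', rep_plus (π d) h1]
  have a_rep : ∀ d, side d → a (rep d) = Sum.inl (v d) := fun d h => by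
    rw [rep_plus d h]
    simp only [a, h, if_true]
  have b_rep : ∀ d, ¬ side d → b (rep d) = Sum.inl (v d) := fun d h => by
    by_cases h' : π d = d
    · rw [rep_minus d h h']
      simp only [b, h, if_false]
    · rw [rep_minus' d h h']
      have h1 : side (π d) := (side1 d h').2 h
      have h'' : π (π d) ≠ π d := by rw [hπ]; exact fun h => h' h.symm
      simp only [b, h1, if_true, h'', if_false]
      rw [hπ]
  have rep_inj : ∀ d d', rep d = rep d' → d' = d ∨ d' = π d := by
    intro d d' h
    have h1 : (rep d).1 = d ∨ (rep d).1 = π d := by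
      by_cases hd : side d
      · rw [rep_plus d hd]; exact Or.inl rfl
      · by_cases h' : π d = d
        · rw [rep_minus d hd h']; exact Or.inl rfl
        · rw [rep_minus' d hd h']; exact Or.inr rfl
    have h2 : (rep d').1 = d' ∨ (rep d').1 = π d' := by
      by_cases hd : side d'
      · rw [rep_plus d' hd]; exact Or.inl rfl
      · by_cases h' : π d' = d'
        · rw [rep_minus d' hd h']; exact Or.inl rfl
        · rw [rep_minus' d' hd h']; exact Or.inr rfl
    rw [← h] at h2
    rcases h1 with h1 | h1 <;> rcases h2 with h2 | h2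
    · exact Or.inl (h2.symm.trans h1)
    · right
      rw [← h1, h2, hπ]
    · exact Or.inr (h2.symm.trans h1)
    · left
      rw [← hπ d', ← h2, h1, hπ]
  refine ⟨fun d => c (rep d), fun d => by simp only [rep_inv], fun d k hk => ?_⟩
  have hp : ∃ e, v e = v d ∧ side e ∧ c (rep e) = k := by
    have himg : (univ.filter fun e => v e = v d ∧ side e).image (fun e => c (rep e)) = range r := by
      refine eq_of_subset_of_card_le (fun x hx => ?_) ?_
      · obtain ⟨e, _, rfl⟩ := mem_image.1 hx
        exact mem_range.2 (hc1 _)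
      · rw [card_range, card_image_of_injOn, plus_eq]
        intro e he e' he' h
        have h1 := (mem_filter.1 (mem_coe.1 he)).2
        have h2 := (mem_filter.1 (mem_coe.1 he')).2
        by_contra hne
        have h3 : rep e ≠ rep e' := by
          rw [rep_plus e h1.2, rep_plus e' h2.2]
          exact fun h4 => hne (congrArg Subtype.val h4)
        exact ca _ _ h3 ((a_rep e h1.2).trans ((congrArg Sum.inl (h1.1.trans h2.1.symm)).trans
          (a_rep e' h2.2).symm)) (Fin.ext h)
    have : k ∈ range r := mem_range.2 hk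
    rw [← himg] at this
    obtain ⟨e, he, h⟩ := mem_image.1 this
    have h1 := (mem_filter.1 he).2
    exact ⟨e, h1.1, h1.2, h⟩
  have hm : ∃ e, v e = v d ∧ ¬ side e ∧ c (rep e) = k := by
    have himg : (univ.filter fun e => v e = v d ∧ ¬ side e).image (fun e => c (rep e)) = range r := by
      refine eq_of_subset_of_card_le (fun x hx => ?_) ?_
      · obtain ⟨e, _, rfl⟩ := mem_image.1 hx
        exact mem_range.2 (hc1 _)
      · rw [card_range, card_image_of_injOn, minus_eq]
        intro e he e' he' h
        have h1 := (mem_filter.1 (mem_coe.1 he)).2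
        have h2 := (mem_filter.1 (mem_coe.1 he')).2
        by_contra hne
        have h3 : rep e ≠ rep e' := by
          intro h4
          rcases rep_inj _ _ h4 with h5 | h5
          · exact hne h5.symm
          · by_cases h6 : π e = e
            · exact hne (h5.trans h6).symm
            · refine h2.2 ?_
              rw [h5]
              exact (side1 e h6).2 h1.2
        exact cb _ _ h3 ((b_rep e h1.2).trans ((congrArg Sum.inl (h1.1.trans h2.1.symm)).trans
          (b_rep e' h2.2).symm)) (Fin.ext h)
    have : k ∈ range r := mem_range.2 hk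
    rw [← himg] at this
    obtain ⟨e, he, h⟩ := mem_image.1 this
    have h1 := (mem_filter.1 he).2
    exact ⟨e, h1.1, h1.2, h⟩
  obtain ⟨e, he1, he2, he3⟩ := hp
  obtain ⟨e', he1', he2', he3'⟩ := hm
  refine one_lt_card.2 ⟨e, mem_filter.2 ⟨mem_univ _, he1, he3⟩, e',
    mem_filter.2 ⟨mem_univ _, he1', he3'⟩, fun h => ?_⟩
  rw [h] at he2
  exact he2' he2

end Pool.Agent.J4.H16.TN
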