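import Pool.Agent.J4.H16.FL.Main
import Pool.Agent.J4.H16.TN.Pet

set_option autoImplicit false

/-!
List edge colourings when every colour of a list is in the list of at most one neighbouring class.
-/

namespace Pool.Agent.J4.H16.TN

open Finset Pool.Agent.J4.H16.FL

/-- Local splitting of the lists into sets of at most two colours. -/
theorem local_split {V : Type} [Finite V] (G : SimpleGraph V) {m : ℕ} (d : Fin m → ℕ)
    (hd : ∀ j, d j ≤ 2) (hG : G.lineGraph.Colorable (∑ j, d j)) (L : G.edgeSet → Finset ℕ)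
    (p : Fin m → G.edgeSet → Finset ℕ) (hpL : ∀ j e, p j e ⊆ L e) (hp : ∀ j e, d j ≤ (p j e).card)
    (hdis : ∀ j j' e e', j ≠ j' → G.lineGraph.Adj e e' → ∀ c ∈ p j e, c ∉ p j' e') :
    ListColourable G L := by
  classical
  obtain ⟨C⟩ := hG
  let C' : G.edgeSet → Σ j, Fin (d j) := fun e => finSigmaFinEquiv.symm (C e)
  have hC' : ∀ e e', G.lineGraph.Adj e e' → C' e ≠ C' e' := fun e e' hadj heq =>
    C.valid hadj (finSigmaFinEquiv.symm.injective heq)
  have key : ∀ j, ∃ f : G.edgeSet → ℕ, (∀ e, (C' e).1 = j → f e ∈ p j e) ∧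
      ∀ e e', (C' e).1 = j → (C' e').1 = j → G.lineGraph.Adj e e' → f e ≠ f e' := by
    intro j
    obtain ⟨X, t, hX, ht⟩ := exists_types (K := Nat.card G.edgeSet) (d := d j) (p j) (hp j) (by
      rw [← Set.image_univ]
      refine (Set.ncard_image_le Set.finite_univ).trans ?_
      rw [Set.ncard_univ])
    have hs : Solvable (d j) X := by
      rcases Nat.eq_zero_or_pos (d j) with h0 | h0
      · rw [h0]
        exact solvable_zero X
      · have := hd j
        exact small (by omega) hX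
    obtain ⟨f, hf1, hf2⟩ := hs.restrict G (fun e => (C' e).1 = j) (fun e => ((C' e).2 : ℕ))
      (fun e he => lt_of_lt_of_eq (C' e).2.2 (congrArg d he))
      (fun e e' he he' hadj heq => by
        refine hC' e e' hadj ?_
        generalize C' e = x at he heq
        generalize C' e' = y at he' heq
        obtain ⟨x1, x2⟩ := x
        obtain ⟨y1, y2⟩ := y
        simp only at he he' heq
        subst he
        subst he'
        rw [Fin.ext heq]) t
    exact ⟨f, fun e he => ht e (hf1 e he), hf2⟩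
  choose f hf1 hf2 using key
  refine ⟨fun e => f (C' e).1 e, fun e => hpL _ e (hf1 _ e rfl), fun e e' hadj heq => ?_⟩
  by_cases h : (C' e).1 = (C' e').1
  · refine hf2 (C' e).1 e e' rfl h.symm hadj ?_
    simp only at heq
    rw [heq, h]
  · refine hdis _ _ e e' h hadj _ (hf1 _ e rfl) ?_
    simp only at heq
    rw [heq]
    exact hf1 _ e' rfl

/-- Two classes of edges are neighbours: some edge in the first is adjacent to some edge in the
second. -/
def Neighbours {V ι : Type} (G : SimpleGraph V) (t : G.edgeSet → ι) (x y : ι) : Prop :=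
  x ≠ y ∧ ∃ e e', G.lineGraph.Adj e e' ∧ t e = x ∧ t e' = y

theorem Neighbours.symm {V ι : Type} {G : SimpleGraph V} {t : G.edgeSet → ι} {x y : ι}
    (h : Neighbours G t x y) : Neighbours G t y x := by
  obtain ⟨h1, e, e', h2, h3, h4⟩ := h
  exact ⟨h1.symm, e', e, h2.symm, h4, h3⟩

/-- The labels of the colours of the lists. -/
theorem exists_labels {V ι : Type} [Finite V] (G : SimpleGraph V) (t : G.edgeSet → ι)
    (σ : ι → Finset ℕ) (r : ℕ) (hσ : ∀ e, (σ (t e)).card = 2 * r)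
    (h : ∀ x y z, Neighbours G t x y → Neighbours G t x z → ∀ c ∈ σ x, c ∈ σ y → c ∈ σ z → y = z) :
    ∃ q : ℕ → G.edgeSet → Finset ℕ, (∀ k e, q k e ⊆ σ (t e)) ∧ (∀ k < r, ∀ e, 2 ≤ (q k e).card) ∧
      ∀ k k' e e', k ≠ k' → G.lineGraph.Adj e e' → ∀ c ∈ q k e, c ∉ q k' e' := by
  classical
  let ι' := Set.range t
  let δ := Σ x : ι', {c // c ∈ σ x.1}
  have : Finite ι' := Set.finite_range t
  have : Fintype δ := Fintype.ofFinite δ
  let Q : δ → ι' → Prop := fun d y => Neighbours G t d.1.1 y.1 ∧ d.2.1 ∈ σ y.1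
  let π : δ → δ := fun d => if h : ∃ y, Q d y then ⟨h.choose, ⟨d.2.1, h.choose_spec.2⟩⟩ else d
  have hQ : ∀ d y y', Q d y → Q d y' → y = y' := fun d y y' h1 h2 =>
    Subtype.ext (h _ _ _ h1.1 h2.1 _ d.2.2 h1.2 h2.2)
  have π1 : ∀ d y (hy : Q d y), π d = ⟨y, ⟨d.2.1, hy.2⟩⟩ := by
    intro d y hy
    have h1 : ∃ y, Q d y := ⟨y, hy⟩
    have h2 : π d = ⟨h1.choose, ⟨d.2.1, h1.choose_spec.2⟩⟩ := dif_pos h1
    rw [h2]
    exact Sigma.subtype_ext (hQ d _ _ h1.choose_spec hy) rfl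
  have π2 : ∀ d, (¬ ∃ y, Q d y) → π d = d := fun d hd => dif_neg hd
  have hπ : ∀ d, π (π d) = d := by
    intro d
    by_cases h1 : ∃ y, Q d y
    · obtain ⟨y, hy⟩ := h1
      rw [π1 d y hy]
      have h2 : Q ⟨y, ⟨d.2.1, hy.2⟩⟩ d.1 := ⟨hy.1.symm, d.2.2⟩
      rw [π1 _ _ h2]
    · rw [π2 d h1, π2 d h1]
  have hv : ∀ d : δ, (univ.filter fun e : δ => e.1 = d.1).card = 2 * r := by
    intro d
    obtain ⟨⟨_, e, rfl⟩, c⟩ := d
    have h1 : (univ : Finset {c // c ∈ σ (t e)}).card = 2 * r := by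
      rw [card_univ, Fintype.card_coe]
      exact hσ e
    rw [← h1]
    symm
    refine card_bij (fun (c : {c // c ∈ σ (t e)}) _ => (⟨⟨t e, ⟨e, rfl⟩⟩, c⟩ : δ)) (fun c _ => ?_)
      (fun c _ c' _ hc => ?_) (fun x hx => ?_)
    · exact mem_filter.2 ⟨mem_univ _, rfl⟩
    · exact eq_of_heq (Sigma.mk.inj hc).2
    · obtain ⟨x1, x2⟩ := x
      have h1 := (mem_filter.1 hx).2
      simp only at h1
      subst h1
      exact ⟨x2, mem_univ _, rfl⟩
  obtain ⟨β, hβ1, hβ2⟩ := petersen (fun d : δ => d.1) π hπ r hv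
  refine ⟨fun k e => (σ (t e)).filter fun c => ∃ hc : c ∈ σ (t e), β ⟨⟨t e, ⟨e, rfl⟩⟩, ⟨c, hc⟩⟩ = k,
    fun k e => filter_subset _ _, fun k hk e => ?_, fun k k' e e' hkk hadj c hc hc' => ?_⟩
  · have h1 : (σ (t e)).Nonempty := by
      rw [← card_pos, hσ]
      omega
    obtain ⟨c0, hc0⟩ := h1
    refine (hβ2 ⟨⟨t e, ⟨e, rfl⟩⟩, ⟨c0, hc0⟩⟩ k hk).trans ?_
    refine card_le_card_of_injOn (fun d : δ => d.2.1) (fun d hd => ?_) ?_
    · have h2 := (mem_filter.1 (mem_coe.1 hd)).2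
      obtain ⟨x1, x2⟩ := d
      obtain ⟨h3, h4⟩ := h2
      simp only at h3
      subst h3
      exact mem_coe.2 (mem_filter.2 ⟨x2.2, x2.2, h4⟩)
    · intro d hd d' hd' hdd
      have h2 := (mem_filter.1 (mem_coe.1 hd)).2
      have h3 := (mem_filter.1 (mem_coe.1 hd')).2
      exact Sigma.subtype_ext (h2.1.trans h3.1.symm) hdd
  · obtain ⟨_, h1, h2⟩ := mem_filter.1 hc
    obtain ⟨_, h1', h2'⟩ := mem_filter.1 hc'
    refine hkk (h2.symm.trans (Eq.trans ?_ h2'))
    by_cases ht : t e = t e'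
    · congr 1
      exact Sigma.subtype_ext (Subtype.ext ht) rfl
    · have h3 : Q ⟨⟨t e, ⟨e, rfl⟩⟩, ⟨c, h1⟩⟩ ⟨t e', ⟨e', rfl⟩⟩ := ⟨⟨ht, e, e', hadj, rfl, rfl⟩, h1'⟩
      rw [← hβ1, π1 _ _ h3]

theorem main {V ι : Type} [Finite V] (G : SimpleGraph V) (D : ℕ) (hG : G.lineGraph.Colorable D)
    (t : G.edgeSet → ι) (X : ι → Finset ℕ) (hX : ∀ e, D ≤ (X (t e)).card)
    (h : ∀ x y z, Neighbours G t x y → Neighbours G t x z → ∀ c ∈ X x, c ∈ X y → c ∈ X z → y = z)
    (hD : Even D ∨ ∃ ρ : ι → ℕ, (∀ e, ρ (t e) ∈ X (t e)) ∧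
      ∀ x y, Neighbours G t x y → ρ x ∈ X y → ρ y = ρ x) :
    ListColourable G fun e => X (t e) := by
  classical
  obtain ⟨r, s, hDrs, hs, R, hR1, hR2, hR3⟩ : ∃ (r s : ℕ), D = s + 2 * r ∧ s ≤ 2 ∧
      ∃ R : ι → Finset ℕ, (∀ e, (R (t e)).card = s) ∧ (∀ e, R (t e) ⊆ X (t e)) ∧
        ∀ x y, Neighbours G t x y → ∀ c ∈ R x, c ∈ X y → c ∈ R y := by
    by_cases hE : Even D
    · obtain ⟨r, rfl⟩ := hE
      exact ⟨r, 0, by omega, by omega, fun _ => ∅, fun e => card_empty, fun e => empty_subset _,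
        fun x y _ c hc => absurd hc (notMem_empty c)⟩
    · obtain ⟨ρ, hρ1, hρ2⟩ := hD.resolve_left hE
      obtain ⟨r, rfl⟩ := Nat.not_even_iff_odd.1 hE
      refine ⟨r, 1, by omega, by omega, fun x => {ρ x}, fun e => card_singleton _,
        fun e => singleton_subset_iff.2 (hρ1 e), fun x y hxy c hc hcy => ?_⟩
      rw [mem_singleton] at hc ⊢
      rw [hc] at hcy ⊢
      exact (hρ2 x y hxy hcy).symm
  have hσ : ∀ x : ι, ∃ σ : Finset ℕ, σ ⊆ X x \ R x ∧ ((∃ e, t e = x) → σ.card = 2 * r) := by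
    intro x
    by_cases hx : ∃ e, t e = x
    · obtain ⟨e, rfl⟩ := hx
      have h1 : 2 * r ≤ (X (t e) \ R (t e)).card := by
        have h2 := card_sdiff_of_subset (hR2 e)
        have h3 := hX e
        rw [hR1] at h2
        omega
      obtain ⟨σ, h2, h3⟩ := exists_subset_card_eq h1
      exact ⟨σ, h2, fun _ => h3⟩
    · exact ⟨∅, empty_subset _, fun h => absurd h hx⟩
  choose σ hσ1 hσ2 using hσ
  obtain ⟨q, hq1, hq2, hq3⟩ := exists_labels G t σ r (fun e => hσ2 _ ⟨e, rfl⟩)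
    (fun x y z hxy hxz c h1 h2 h3 => h x y z hxy hxz c (mem_sdiff.1 (hσ1 x h1)).1
      (mem_sdiff.1 (hσ1 y h2)).1 (mem_sdiff.1 (hσ1 z h3)).1)
  have hq4 : ∀ k e c, c ∈ q k e → c ∈ X (t e) ∧ c ∉ R (t e) := fun k e c hc =>
    mem_sdiff.1 (hσ1 _ (hq1 k e hc))
  have h0 : ∀ e e', G.lineGraph.Adj e e' → ∀ c ∈ R (t e), c ∈ X (t e') → c ∈ R (t e') := by
    intro e e' hadj c hc hc'
    by_cases ht : t e = t e'
    · rw [← ht]; exact hc
    · exact hR3 _ _ ⟨ht, e, e', hadj, rfl, rfl⟩ c hc hc'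
  refine local_split G (m := r + 1) (Fin.cons s fun _ => 2) (fun j => ?_) ?_ _
    (Fin.cons (fun e => R (t e)) fun j e => q j e) (fun j e => ?_) (fun j e => ?_)
    (fun j j' e e' hjj hadj c hc hc' => ?_)
  · refine Fin.cases ?_ (fun j => ?_) j
    · simpa using hs
    · simp
  · rw [Fin.sum_univ_succ]
    simp only [Fin.cons_zero, Fin.cons_succ, sum_const, card_univ, Fintype.card_fin, smul_eq_mul]
    rw [show s + r * 2 = D by omega]
    exact hG
  · refine Fin.cases ?_ (fun j => ?_) j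
    · simpa using hR2 e
    · simp only [Fin.cons_succ]
      exact fun c hc => (hq4 _ e c hc).1
  · refine Fin.cases ?_ (fun j => ?_) j
    · simpa using (hR1 e).ge
    · simp only [Fin.cons_succ]
      exact hq2 _ j.2 e
  · revert hjj hc hc'
    refine Fin.cases ?_ (fun j => ?_) j <;> refine Fin.cases ?_ (fun j' => ?_) j'
    · intro h1
      exact absurd rfl h1
    · intro _ hc hc'
      simp only [Fin.cons_zero, Fin.cons_succ] at hc hc'
      exact (hq4 _ _ _ hc').2 (h0 e e' hadj c hc (hq4 _ _ _ hc').1)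
    · intro _ hc hc'
      simp only [Fin.cons_zero, Fin.cons_succ] at hc hc'
      exact (hq4 _ _ _ hc).2 (h0 e' e hadj.symm c hc' (hq4 _ _ _ hc).1)
    · intro h1 hc hc'
      simp only [Fin.cons_succ] at hc hc'
      exact hq3 _ _ e e' (fun h2 => h1 (congrArg Fin.succ (Fin.ext h2))) hadj c hc hc'

end Pool.Agent.J4.H16.TN
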