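import Pool.Agent.J4.H16.TN.Main

set_option autoImplicit false

/-!
Local divisions of the lists into parts which are small, or have few different sets.
-/

namespace Pool.Agent.J4.H16.TN

open Finset Pool.Agent.J4.H16.FL

/-- The list edge-colouring conjecture for the lists which can locally be divided into parts, each of
which is small or has at most `K` different sets. -/
def PartLists (K : ℕ) : Prop :=
  ∀ (V : Type) [Finite V] (G : SimpleGraph V) (L : G.edgeSet → Finset ℕ) (m : ℕ) (d : Fin m → ℕ)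
    (P : Fin m → G.edgeSet → Finset ℕ), G.lineGraph.Colorable (∑ j, d j) →
    (∀ j e, P j e ⊆ L e ∧ d j ≤ (P j e).card) →
    (∀ j j' e e', j ≠ j' → G.lineGraph.Adj e e' → Disjoint (P j e) (P j' e')) →
    (∀ j, d j ≤ 2 ∨ (Set.range (P j)).ncard ≤ K) → ListColourable G L

theorem split_gen {K : ℕ} (hK : ∀ (D : ℕ) (X : Fin K → Finset ℕ), (∀ i, (X i).card = D) →
    Solvable D X) {V : Type} [Finite V] (G : SimpleGraph V) {J : Type} [Fintype J] (d : J → ℕ)
    (hG : G.lineGraph.Colorable (∑ j, d j)) (L : G.edgeSet → Finset ℕ)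
    (p : J → G.edgeSet → Finset ℕ) (hpL : ∀ j e, p j e ⊆ L e) (hp : ∀ j e, d j ≤ (p j e).card)
    (hdis : ∀ j j' e e', j ≠ j' → G.lineGraph.Adj e e' → ∀ c ∈ p j e, c ∉ p j' e')
    (hd : ∀ j, d j ≤ 2 ∨ (Set.range (p j)).ncard ≤ K) : ListColourable G L := by
  classical
  obtain ⟨C⟩ := hG
  let q : Fin (∑ j, d j) ≃ Σ j, Fin (d j) :=
    (Fintype.equivFinOfCardEq (by rw [Fintype.card_sigma]; simp)).symm
  let C' : G.edgeSet → Σ j, Fin (d j) := fun e => q (C e)
  have hC' : ∀ e e', G.lineGraph.Adj e e' → C' e ≠ C' e' := fun e e' hadj heq =>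
    C.valid hadj (q.injective heq)
  have key : ∀ j, ∃ f : G.edgeSet → ℕ, (∀ e, (C' e).1 = j → f e ∈ p j e) ∧
      ∀ e e', (C' e).1 = j → (C' e').1 = j → G.lineGraph.Adj e e' → f e ≠ f e' := by
    intro j
    have hXt : ∃ (K' : ℕ) (X : Fin K' → Finset ℕ) (t : G.edgeSet → Fin K'), Solvable (d j) X ∧
        ∀ e, X (t e) ⊆ p j e := by
      rcases hd j with h2 | hK'
      · obtain ⟨X, t, hX, ht⟩ := exists_types (K := Nat.card G.edgeSet) (d := d j) (p j) (hp j) (by
          rw [← Set.image_univ]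
          refine (Set.ncard_image_le Set.finite_univ).trans ?_
          rw [Set.ncard_univ])
        refine ⟨_, X, t, ?_, ht⟩
        rcases Nat.eq_zero_or_pos (d j) with h0 | h0
        · rw [h0]
          exact solvable_zero X
        · exact small (by omega) hX
      · obtain ⟨X, t, hX, ht⟩ := exists_types (K := K) (d := d j) (p j) (hp j) hK'
        exact ⟨K, X, t, hK _ X hX, ht⟩
    obtain ⟨K', X, t, hs, ht⟩ := hXt
    obtain ⟨f, hf1, hf2⟩ := hs.restrict G (fun e => (C' e).1 = j) (fun e => ((C' e).2 : ℕ))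
      (fun e he => lt_of_lt_of_eq (C' e).2.2 (congrArg d he))
      (fun e e' he he' hadj heq => by
        refine hC' e e' hadj ?_
        generalize C' e = x at he heq
        generalize C' e' = y at he' heq
        obtain ⟨x1, x2⟩ := x
        obtain ⟨y1, y2⟩ := y
        simp only at he he' heq
        subst he
        subst he'
        rw [Fin.ext heq]) t
    exact ⟨f, fun e he => ht e (hf1 e he), hf2⟩
  choose f hf1 hf2 using key
  refine ⟨fun e => f (C' e).1 e, fun e => hpL _ e (hf1 _ e rfl), fun e e' hadj heq => ?_⟩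
  by_cases h : (C' e).1 = (C' e').1
  · refine hf2 (C' e).1 e e' rfl h.symm hadj ?_
    simp only at heq
    rw [heq, h]
  · refine hdis _ _ e e' h hadj _ (hf1 _ e rfl) ?_
    simp only at heq
    rw [heq]
    exact hf1 _ e' rfl

theorem partLists_of {K : ℕ} (hK : ∀ (D : ℕ) (X : Fin K → Finset ℕ), (∀ i, (X i).card = D) →
    Solvable D X) : PartLists K := by
  intro V _ G L m d P hG hP hdis hd
  exact split_gen hK G d hG L P (fun j e => (hP j e).1) (fun j e => (hP j e).2)
    (fun j j' e e' hj hadj c hc hc' => disjoint_left.1 (hdis j j' e e' hj hadj) hc hc') hd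

theorem solvable_of_partLists {K : ℕ} (h : PartLists K) (D : ℕ) (X : Fin K → Finset ℕ)
    (hX : ∀ i, (X i).card = D) : Solvable D X := by
  intro V _ G hG t
  refine h V G _ 1 (fun _ => D) (fun _ e => X (t e)) (by simpa using hG)
    (fun _ e => ⟨Subset.refl _, (hX _).ge⟩)
    (fun j j' _ _ hj => absurd (Subsingleton.elim j j') hj) fun j => Or.inr ?_
  have h1 : Set.range (fun e => X (t e)) ⊆ Set.range X := by
    rintro _ ⟨e, rfl⟩
    exact ⟨t e, rfl⟩
  refine (Set.ncard_le_ncard h1 (Set.finite_range X)).trans ?_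
  rw [← Set.image_univ]
  refine (Set.ncard_image_le Set.finite_univ).trans ?_
  rw [Set.ncard_univ, Nat.card_eq_fintype_card, Fintype.card_fin]

theorem main_parts : ∃ 𝓢 : (K : ℕ) → Finset (ℕ × (Fin K → Finset ℕ)),
    𝓢 3 = ∅ ∧ 𝓢 4 = {(3, palA), (3, palB)} ∧
    ∀ K, (∀ p ∈ 𝓢 K, ∀ i, (p.2 i).card = p.1) ∧
      (PartLists K ↔ ∀ p ∈ 𝓢 K, Solvable p.1 p.2) :=
  ⟨critical, rfl, rfl, fun K => ⟨critical_card K,
    fun h p hp => solvable_of_partLists h _ _ (critical_card K p hp),
    fun h => partLists_of (solvable_of_critical K h)⟩⟩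

end Pool.Agent.J4.H16.TN
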